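import Pool.Agent.helper32.QS.Spec

set_option autoImplicit false

namespace QS

open scoped BigOperators commutatorElement

/-- `f` fixes `x` as soon as it fixes `x⁻¹ f x` -/
theorem OMG_fix {Q : Type} [Group Q] (p m : ℕ) (hp : p.Prime) (hm : ¬ p ∣ m) (hQ : IsPGroup p Q)
    (f : Q →* Q) (hf : ∀ x, f^[m] x = x) (x : Q) (hx : f (x⁻¹ * f x) = x⁻¹ * f x) : f x = x := by
  obtain ⟨c, hc⟩ : ∃ c, c = x⁻¹ * f x := ⟨_, rfl⟩
  rw [← hc] at hx
  have hfx : f x = x * c := by rw [hc, mul_inv_cancel_left]
  have h1 : ∀ j : ℕ, f^[j] x = x * c ^ j := by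
    intro j
    induction j with
    | zero => simp
    | succ j ih =>
      rw [Function.iterate_succ_apply', ih, map_mul, map_pow, hx, hfx, mul_assoc, ← pow_succ']
  have h2 : c ^ m = 1 := by
    have h3 := h1 m
    rw [hf x] at h3
    exact (mul_eq_left.mp h3.symm)
  obtain ⟨k, hk⟩ := hQ c
  have h3 : orderOf c ∣ m := orderOf_dvd_of_pow_eq_one h2
  have h4 : orderOf c ∣ p ^ k := orderOf_dvd_of_pow_eq_one hk
  have h5 : Nat.Coprime m (p ^ k) := Nat.Coprime.pow_right k ((Nat.Prime.coprime_iff_not_dvd hp).2 hm).symm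
  have h6 : orderOf c = 1 := Nat.eq_one_of_dvd_coprimes h5 h3 h4
  have h7 : c = 1 := orderOf_eq_one_iff.1 h6
  rw [hfx, h7, mul_one]

theorem OMG_comm {Q : Type} [Group Q] (a b c : Q) (hc : ∀ x : Q, c * x = x * c) (hba : b * a = c * (a * b)) :
    (∀ k : ℕ, b ^ k * a = c ^ k * (a * b ^ k)) ∧ ∀ n : ℕ, (a * b) ^ n = a ^ n * b ^ n * c ^ (n.choose 2) := by
  have hck : ∀ (k : ℕ) (x : Q), c ^ k * x = x * c ^ k := fun k x =>
    ((show Commute c x from hc x).pow_left k)
  have h1 : ∀ k : ℕ, b ^ k * a = c ^ k * (a * b ^ k) := by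
    intro k
    induction k with
    | zero => simp
    | succ k ih =>
      calc b ^ (k + 1) * a = b ^ k * (b * a) := by rw [pow_succ, mul_assoc]
        _ = b ^ k * (c * (a * b)) := by rw [hba]
        _ = (b ^ k * c) * (a * b) := by rw [mul_assoc]
        _ = (c * b ^ k) * (a * b) := by rw [hc]
        _ = c * ((b ^ k * a) * b) := by simp only [mul_assoc]
        _ = c * ((c ^ k * (a * b ^ k)) * b) := by rw [ih]
        _ = c ^ (k + 1) * (a * b ^ (k + 1)) := by
            rw [pow_succ' c, pow_succ b]
            simp only [mul_assoc]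
  refine ⟨h1, fun n => ?_⟩
  induction n with
  | zero => simp
  | succ n ih =>
    have hch : (n + 1).choose 2 = n + n.choose 2 := by
      rw [Nat.choose_succ_succ' n 1, Nat.choose_one_right]
    calc (a * b) ^ (n + 1) = (a * b) ^ n * (a * b) := pow_succ _ _
      _ = a ^ n * b ^ n * c ^ (n.choose 2) * (a * b) := by rw [ih]
      _ = a ^ n * b ^ n * (c ^ (n.choose 2) * (a * b)) := by simp only [mul_assoc]
      _ = a ^ n * b ^ n * ((a * b) * c ^ (n.choose 2)) := by rw [hck]
      _ = a ^ n * (b ^ n * a) * b * c ^ (n.choose 2) := by simp only [mul_assoc]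
      _ = a ^ n * (c ^ n * (a * b ^ n)) * b * c ^ (n.choose 2) := by rw [h1]
      _ = a ^ n * ((a * b ^ n) * c ^ n) * b * c ^ (n.choose 2) := by rw [hck]
      _ = a ^ n * a * b ^ n * (c ^ n * b) * c ^ (n.choose 2) := by simp only [mul_assoc]
      _ = a ^ n * a * b ^ n * (b * c ^ n) * c ^ (n.choose 2) := by rw [hck]
      _ = (a ^ n * a) * (b ^ n * b) * (c ^ n * c ^ (n.choose 2)) := by simp only [mul_assoc]
      _ = a ^ (n + 1) * b ^ (n + 1) * c ^ ((n + 1).choose 2) := by
          rw [← pow_succ, ← pow_succ, ← pow_add, hch]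

theorem OMG_aux (p m : ℕ) (hp : p.Prime) (hp2 : p ≠ 2) (hm : ¬ p ∣ m) :
    ∀ n : ℕ, ∀ (Q : Type) [Group Q] [Finite Q], Nat.card Q = n → IsPGroup p Q → ∀ f : Q →* Q,
      (∀ x, f^[m] x = x) → (∀ w : Q, w ^ p = 1 → f w = w) → ∀ x, f x = x := by
  intro n
  induction n using Nat.strong_induction_on with
  | _ n IH =>
    intro Q _ _ hn hQ f hf hw
    have : Fact p.Prime := ⟨hp⟩
    -- invariant proper subgroups
    have hsub : ∀ R : Subgroup Q, R ≠ ⊤ → (∀ x ∈ R, f x ∈ R) → ∀ x ∈ R, f x = x := by
      intro R hR hinv x hx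
      obtain ⟨g, hg⟩ : ∃ g : R →* R, ∀ y : R, ((g y : R) : Q) = f (y : Q) :=
        ⟨(f.comp R.subtype).codRestrict R (fun y => hinv y.1 y.2), fun y => rfl⟩
      have hcard : Nat.card R < n := by
        rw [← hn]
        refine lt_of_le_of_ne (Subgroup.card_le_card_group R) fun h => hR ?_
        exact Subgroup.eq_top_of_card_eq R h
      have hit : ∀ (j : ℕ) (y : R), ((g^[j] y : R) : Q) = f^[j] (y : Q) := by
        intro j
        induction j with
        | zero => intro y; rfl
        | succ j ih =>
          intro y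
          rw [Function.iterate_succ_apply', Function.iterate_succ_apply', hg, ih]
      have h1 := IH (Nat.card R) hcard R rfl (hQ.to_subgroup R) g
        (fun y => Subtype.ext (by rw [hit, hf]))
        (fun w hw' => Subtype.ext (by
          rw [hg]
          apply hw
          have h2 := congrArg (fun z : R => (z : Q)) hw'
          simpa using h2)) ⟨x, hx⟩
      have h2 := congrArg (fun z : R => (z : Q)) h1
      simp only [hg] at h2
      exact h2
    have hfix := fun x hx => OMG_fix p m hp hm hQ f hf x hx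
    obtain ⟨R, hR⟩ : ∃ R : Subgroup Q, R = Subgroup.closure {g | ∃ x : Q, g = x⁻¹ * f x} := ⟨_, rfl⟩
    have hRmem : ∀ x : Q, x⁻¹ * f x ∈ R := by
      intro x
      rw [hR]
      exact Subgroup.subset_closure ⟨x, rfl⟩
    have hRinv : ∀ x ∈ R, f x ∈ R := by
      have h1 : R ≤ R.comap f := by
        conv_lhs => rw [hR]
        rw [Subgroup.closure_le]
        rintro g ⟨x, rfl⟩
        show f (x⁻¹ * f x) ∈ R
        rw [map_mul, map_inv]
        exact hRmem (f x)
      exact fun x hx => h1 hx
    by_cases hRtop : R = ⊤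
    · -- the case `R = ⊤`
      rcases subsingleton_or_nontrivial Q with hs | hnt
      · intro x
        exact Subsingleton.elim _ _
      -- a normal subgroup of index `p`
      obtain ⟨K, hKn, hKi⟩ : ∃ K : Subgroup Q, K.Normal ∧ K.index = p := by
        obtain ⟨k, hk⟩ := IsPGroup.iff_card.1 hQ
        have hk0 : k ≠ 0 := by
          intro h0
          rw [h0, pow_zero] at hk
          have h1 := Finite.one_lt_card (α := Q)
          omega
        obtain ⟨l, rfl⟩ : ∃ l, k = l + 1 := ⟨k - 1, by omega⟩
        obtain ⟨K, hK⟩ := Sylow.exists_subgroup_card_pow_prime (G := Q) p (n := l)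
          (by rw [hk]; exact pow_dvd_pow p (Nat.le_succ l))
        have hi : K.index = p := by
          have h1 := K.card_mul_index
          rw [hK, hk, pow_succ] at h1
          exact Nat.eq_of_mul_eq_mul_left (pow_pos hp.pos l) h1
        refine ⟨K, ?_, hi⟩
        apply Subgroup.normal_of_index_eq_minFac_card
        rw [hi, hk, Nat.pow_minFac (Nat.succ_ne_zero l), hp.minFac_eq]
      have hKtop : K ≠ ⊤ := by
        intro h
        rw [h, Subgroup.index_top] at hKi
        exact hp.one_lt.ne hKi
      obtain ⟨F, hF⟩ : ∃ F : Subgroup Q, F = Subgroup.closure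
          ({g | ∃ x : Q, g = x ^ p} ∪ {g | ∃ x y : Q, g = ⁅x, y⁆}) := ⟨_, rfl⟩
      have hFp : ∀ x : Q, x ^ p ∈ F := by
        intro x
        rw [hF]
        exact Subgroup.subset_closure (Or.inl ⟨x, rfl⟩)
      have hFc : ∀ x y : Q, ⁅x, y⁆ ∈ F := by
        intro x y
        rw [hF]
        exact Subgroup.subset_closure (Or.inr ⟨x, y, rfl⟩)
      have hFK : F ≤ K := by
        rw [hF, Subgroup.closure_le]
        rintro g (⟨x, rfl⟩ | ⟨x, y, rfl⟩)
        · have h1 := Subgroup.pow_index_mem K x
          rw [hKi] at h1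
          exact h1
        · have hcard : Nat.card (Q ⧸ K) = p := hKi
          have : IsCyclic (Q ⧸ K) := isCyclic_of_prime_card hcard
          have h1 : (QuotientGroup.mk' K) ⁅x, y⁆ = 1 := by
            rw [map_commutatorElement, commutatorElement_eq_one_iff_mul_comm]
            let := IsCyclic.commGroup (α := Q ⧸ K)
            exact mul_comm ((QuotientGroup.mk' K) x) ((QuotientGroup.mk' K) y)
          exact (QuotientGroup.eq_one_iff _).1 h1
      have hFtop : F ≠ ⊤ := fun h => hKtop (top_le_iff.1 (h ▸ hFK))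
      have hFinv : ∀ x ∈ F, f x ∈ F := by
        have h1 : F ≤ F.comap f := by
          conv_lhs => rw [hF]
          rw [Subgroup.closure_le]
          rintro g (⟨x, rfl⟩ | ⟨x, y, rfl⟩)
          · show f (x ^ p) ∈ F
            rw [map_pow]
            exact hFp _
          · show f ⁅x, y⁆ ∈ F
            rw [map_commutatorElement]
            exact hFc _ _
        exact fun x hx => h1 hx
      have hFfix := hsub F hFtop hFinv
      -- elements of `F` whose conjugates are in `F` are central
      have hcen : ∀ z : Q, (∀ x : Q, x * z * x⁻¹ ∈ F) → ∀ x : Q, z * x = x * z := by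
        intro z hz
        have hz1 : f z = z := by
          apply hFfix
          have h1 := hz 1
          simpa using h1
        have h1 : R ≤ Subgroup.centralizer {z} := by
          conv_lhs => rw [hR]
          rw [Subgroup.closure_le]
          rintro g ⟨x, rfl⟩
          rw [SetLike.mem_coe, Subgroup.mem_centralizer_singleton_iff]
          have h2 := hFfix _ (hz x)
          rw [map_mul, map_mul, map_inv, hz1] at h2
          -- f x * z * (f x)⁻¹ = x * z * x⁻¹
          have h3 : x⁻¹ * (f x * z * (f x)⁻¹) * f x = x⁻¹ * (x * z * x⁻¹) * f x := by rw [h2]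
          have h4 : x⁻¹ * (f x * z * (f x)⁻¹) * f x = x⁻¹ * f x * z := by group
          have h5 : x⁻¹ * (x * z * x⁻¹) * f x = z * (x⁻¹ * f x) := by group
          rw [h4, h5] at h3
          exact h3
        intro x
        have h2 : x ∈ Subgroup.centralizer {z} := h1 (hRtop ▸ Subgroup.mem_top x)
        rw [Subgroup.mem_centralizer_singleton_iff] at h2
        exact h2.symm
      have hpc : ∀ y x : Q, y ^ p * x = x * y ^ p := by
        intro y
        apply hcen
        intro x
        rw [← conj_pow]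
        exact hFp _
      have hcc : ∀ a b x : Q, ⁅a, b⁆ * x = x * ⁅a, b⁆ := by
        intro a b
        apply hcen
        intro x
        have h1 : x * ⁅a, b⁆ * x⁻¹ = ⁅x * a * x⁻¹, x * b * x⁻¹⁆ := by
          simp only [commutatorElement_def]
          group
        rw [h1]
        exact hFc _ _
      intro x
      apply hfix
      apply hw
      -- `(x⁻¹ f x) ^ p = 1`
      obtain ⟨h1, h2⟩ := OMG_comm (x⁻¹) (f x) ⁅f x, x⁻¹⁆ (hcc _ _) (by
        rw [commutatorElement_def]
        group)
      have h3 : ⁅f x, x⁻¹⁆ ^ p = 1 := by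
        have h4 := h1 p
        rw [hpc (f x) x⁻¹] at h4
        exact (right_eq_mul.mp h4)
      have h4 := h2 p
      have h5 : p ∣ p.choose 2 := hp.dvd_choose_self (by norm_num) (lt_of_le_of_ne hp.two_le hp2.symm)
      obtain ⟨d, hd⟩ := h5
      rw [hd, pow_mul, h3, one_pow, mul_one, ← map_pow, hFfix _ (hFp x), inv_pow, inv_mul_cancel] at h4
      exact h4
    · intro x
      apply hfix
      exact hsub R hRtop hRinv _ (hRmem x)

theorem OMG : OMG_stmt := by
  intro Q _ _ p hp hp2 hQ φ m hm hφ hw
  have h1 : ∀ (j : ℕ) (x : Q), (φ ^ j) x = (φ.toMonoidHom)^[j] x := by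
    intro j
    induction j with
    | zero => intro x; rfl
    | succ j ih =>
      intro x
      rw [pow_succ', MulAut.mul_apply, ih, Function.iterate_succ_apply']
      rfl
  have h2 := OMG_aux p m hp hp2 hm (Nat.card Q) Q rfl hQ φ.toMonoidHom
    (fun x => by rw [← h1, hφ]; rfl) (fun w hw' => hw w hw')
  apply MulEquiv.ext
  intro x
  exact h2 x

end QS
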