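import Pool.Agent.helper32.QS.Spec

set_option autoImplicit false

namespace QS

open scoped BigOperators commutatorElement

theorem TOC (hCA : CA_stmt) (hES : ES_stmt) (hCIa : CIa_stmt) (hCIb : CIb_stmt) (hCII : CII_stmt) :
    TOC_stmt := by
  intro k U H _ _ _ _ _ _ _ _ hS p hp h5
  by_cases hH : ∃ x y : H, Heis p x y
  · obtain ⟨x, y, hxy⟩ := hH
    obtain ⟨S, hSS⟩ := hES k U H hS (hCA k U H hS p hp (by omega) x y hxy)
    by_cases h1 : ∃ x y : H, Heis p x y ∧ ⁅x, y⁆ ∉ S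
    · exact hCII k U H hS S hSS p hp h5 h1
    · have h1' : ∀ x y : H, Heis p x y → ⁅x, y⁆ ∈ S := by
        intro a b hab
        by_contra hcon
        exact h1 ⟨a, b, hab, hcon⟩
      by_cases h2 : ∃ x y : H, Heis p x y ∧ ⁅x, y⁆ ∉ SA k U H
      · exact hCIa k U H hS S hSS p hp h5 h1' h2
      · refine hCIb k U H hS S hSS p hp h5 ?_ ⟨x, y, hxy⟩
        intro a b hab
        by_contra hcon
        exact h2 ⟨a, b, hab, hcon⟩
  · haveI := hS.nt
    obtain ⟨w, hw⟩ := exists_ne (0 : U)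
    refine ⟨0, w, fun x y h _ _ => hH ⟨x, y, h⟩, fun x y h _ _ => hH ⟨x, y, h⟩, fun h => ?_⟩
    rw [smul_zero]
    exact hw.symm

end QS
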